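import Mathlib
import Pool.Agent.Helper79.NC.Spec

/-!
# The global metric (module G4 for `MP_4787eb_gt`)
-/

set_option maxSynthPendingDepth 3

namespace Pool.Agent.Helper79.NC

open scoped ContDiff

section Forms

theorem form_ext {A B : E3 →L[ℝ] E3 →L[ℝ] ℝ} (h : ∀ v w, A v w = B v w) : A = B :=
  ContinuousLinearMap.ext fun v => ContinuousLinearMap.ext fun w => h v w

/-- Pull back of a field of bilinear forms by the action of `γ`. -/
noncomputable def pull {Γ : Type} [Group Γ] [MulAction Γ E3] (γ : Γ)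
    (h : E3 → E3 →L[ℝ] E3 →L[ℝ] ℝ) (x : E3) : E3 →L[ℝ] E3 →L[ℝ] ℝ :=
  (h (γ • x)).bilinearComp (fderiv ℝ (fun y : E3 => γ • y) x) (fderiv ℝ (fun y : E3 => γ • y) x)

theorem pull_apply {Γ : Type} [Group Γ] [MulAction Γ E3] (γ : Γ)
    (h : E3 → E3 →L[ℝ] E3 →L[ℝ] ℝ) (x v w : E3) :
    pull γ h x v w = h (γ • x) (fderiv ℝ (fun y : E3 => γ • y) x v)
      (fderiv ℝ (fun y : E3 => γ • y) x w) := rfl

/-- the hyperbolic metric as a field of continuous bilinear forms -/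
noncomputable def hyp : E3 → E3 →L[ℝ] E3 →L[ℝ] ℝ :=
  tubeMetric (fun w => 1 + Complex.normSq w) (fun w => 1 / (1 + Complex.normSq w))

theorem hyp_apply (x v w : E3) : hyp x v w = hypForm x v w := by
  rw [hyp, tubeMetric_apply, hypForm]
  ring

theorem tubeMetric_symm (F σ : ℂ → ℝ) (x v w : E3) :
    tubeMetric F σ x v w = tubeMetric F σ x w v := by
  rw [tubeMetric_apply, tubeMetric_apply]
  simp only [dot]
  ring

theorem tubeMetric_pos (F σ : ℂ → ℝ) (x : E3) (hF : 0 < F x.1) (hσ : 0 ≤ σ x.1)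
    (hσ1 : σ x.1 * Complex.normSq x.1 < 1) (v : E3) (hv : v ≠ 0) :
    0 < tubeMetric F σ x v v := by
  rw [tubeMetric_apply]
  have hcs : dot x.1 v.1 * dot x.1 v.1 ≤ Complex.normSq x.1 * dot v.1 v.1 := by
    simp only [dot, Complex.normSq_apply]
    nlinarith [sq_nonneg (x.1.re * v.1.im - x.1.im * v.1.re)]
  have h1 : σ x.1 * dot x.1 v.1 * dot x.1 v.1 ≤ σ x.1 * Complex.normSq x.1 * dot v.1 v.1 := by
    rw [mul_assoc, mul_assoc]
    exact mul_le_mul_of_nonneg_left hcs hσ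
  have hd : 0 ≤ dot v.1 v.1 := by
    simp only [dot]
    nlinarith [mul_self_nonneg v.1.re, mul_self_nonneg v.1.im]
  by_cases h2 : v.2 = 0
  · have h3 : v.1 ≠ 0 := fun h => hv (Prod.ext h h2)
    have h4 : 0 < dot v.1 v.1 := by
      have : 0 < Complex.normSq v.1 := Complex.normSq_pos.2 h3
      rwa [Complex.normSq_apply] at this
    have h5 : 0 < (1 - σ x.1 * Complex.normSq x.1) * dot v.1 v.1 :=
      mul_pos (by linarith) h4
    rw [h2]
    linarith
  · have h3 : 0 < F x.1 * v.2 * v.2 := by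
      have := mul_pos hF (mul_self_pos.2 h2)
      linarith
    have h5 : 0 ≤ (1 - σ x.1 * Complex.normSq x.1) * dot v.1 v.1 :=
      mul_nonneg (by linarith) hd
    linarith

theorem contDiff_normSq : ContDiff ℝ ∞ (fun w : ℂ => Complex.normSq w) := by
  have : (fun w : ℂ => Complex.normSq w) = fun w : ℂ => w.re * w.re + w.im * w.im := by
    funext w
    exact Complex.normSq_apply w
  rw [this]
  have h1 : ContDiff ℝ ∞ (fun w : ℂ => w.re) := Complex.reCLM.contDiff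
  have h2 : ContDiff ℝ ∞ (fun w : ℂ => w.im) := Complex.imCLM.contDiff
  exact (h1.mul h1).add (h2.mul h2)

theorem contDiff_tubeMetric {F σ : ℂ → ℝ} (hF : ContDiff ℝ ∞ F) (hσ : ContDiff ℝ ∞ σ) :
    ContDiff ℝ ∞ (tubeMetric F σ) := by
  have hfst : ContDiff ℝ ∞ (fun x : E3 => x.1) := contDiff_fst
  have hre : ContDiff ℝ ∞ (fun x : E3 => x.1.re) := Complex.reCLM.contDiff.comp hfst
  have him : ContDiff ℝ ∞ (fun x : E3 => x.1.im) := Complex.imCLM.contDiff.comp hfst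
  have hrad : ContDiff ℝ ∞ (fun x : E3 => radL x.1) := by
    unfold radL
    exact (hre.smul contDiff_const).add (him.smul contDiff_const)
  have htens : ContDiff ℝ ∞ (fun x : E3 => tens (radL x.1) (radL x.1)) := by
    unfold tens
    have hb : IsBoundedBilinearMap ℝ (fun p : (E3 →L[ℝ] ℝ) × (E3 →L[ℝ] ℝ) => p.1.smulRight p.2) :=
      isBoundedBilinearMap_smulRight
    exact hb.contDiff.comp (hrad.prodMk hrad)
  unfold tubeMetric
  exact (((hF.comp hfst).smul contDiff_const).add contDiff_const).sub ((hσ.comp hfst).smul htens)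

theorem contDiff_hyp : ContDiff ℝ ∞ hyp := by
  refine contDiff_tubeMetric (contDiff_const.add contDiff_normSq) ?_
  refine contDiff_const.div (contDiff_const.add contDiff_normSq) fun w => ?_
  have := Complex.normSq_nonneg w
  positivity

theorem contDiff_pull {Γ : Type} [Group Γ] [MulAction Γ E3] (γ : Γ)
    (hγ : ContDiff ℝ ∞ (fun x : E3 => γ • x)) {h : E3 → E3 →L[ℝ] E3 →L[ℝ] ℝ}
    (hh : ContDiff ℝ ∞ h) : ContDiff ℝ ∞ (pull γ h) := by
  have hA : ContDiff ℝ ∞ (fun x : E3 => fderiv ℝ (fun y : E3 => γ • y) x) :=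
    hγ.fderiv_right (by simp)
  have hflip : ContDiff ℝ ∞ (fun B : E3 →L[ℝ] E3 →L[ℝ] ℝ => B.flip) :=
    (ContinuousLinearMap.flipₗᵢ ℝ E3 E3 ℝ).contDiff
  have h1 : ContDiff ℝ ∞ (fun x : E3 => (h (γ • x)).comp (fderiv ℝ (fun y : E3 => γ • y) x)) :=
    (hh.comp hγ).clm_comp hA
  have h2 : ContDiff ℝ ∞ (fun x : E3 => (((h (γ • x)).comp
      (fderiv ℝ (fun y : E3 => γ • y) x)).flip).comp (fderiv ℝ (fun y : E3 => γ • y) x)) :=
    (hflip.comp h1).clm_comp hA
  exact hflip.comp h2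

end Forms

section Group

variable {Γ : Type} [Group Γ] [MulAction Γ E3]

/-- the derivative of the action of `γ` at `x` -/
noncomputable def actD (γ : Γ) (x : E3) : E3 →L[ℝ] E3 := fderiv ℝ (fun y : E3 => γ • y) x

theorem actD_mul (hs : ∀ γ : Γ, ContDiff ℝ ∞ (fun x : E3 => γ • x)) (γ δ : Γ) (x v : E3) :
    actD (γ * δ) x v = actD γ (δ • x) (actD δ x v) := by
  have h1 : (fun y : E3 => (γ * δ) • y) = (fun y : E3 => γ • y) ∘ (fun y : E3 => δ • y) := by
    funext y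
    exact mul_smul γ δ y
  unfold actD
  rw [h1, fderiv_comp]
  · rfl
  · exact ((hs γ).differentiable (by simp)).differentiableAt
  · exact ((hs δ).differentiable (by simp)).differentiableAt

theorem actD_one (x v : E3) : actD (1 : Γ) x v = v := by
  have h1 : (fun y : E3 => (1 : Γ) • y) = id := by
    funext y
    exact one_smul Γ y
  unfold actD
  rw [h1, fderiv_id]
  rfl

theorem actD_ne_zero (hs : ∀ γ : Γ, ContDiff ℝ ∞ (fun x : E3 => γ • x)) (γ : Γ) (x v : E3)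
    (hv : v ≠ 0) : actD γ x v ≠ 0 := by
  intro h
  apply hv
  have h1 := actD_mul hs γ⁻¹ γ x v
  rw [inv_mul_cancel, actD_one, h, map_zero] at h1
  exact h1

theorem pull_apply' (γ : Γ) (h : E3 → E3 →L[ℝ] E3 →L[ℝ] ℝ) (x v w : E3) :
    pull γ h x v w = h (γ • x) (actD γ x v) (actD γ x w) := rfl

open Classical in
/-- the global metric -/
noncomputable def globalG (Γ : Type) [Group Γ] [MulAction Γ E3] (F σ : ℂ → ℝ) (x : E3) :
    E3 →L[ℝ] E3 →L[ℝ] ℝ :=
  if h : ∃ γ : Γ, ‖(γ • x).1‖ < 1 then pull h.choose (tubeMetric F σ) x else hyp x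

variable (hΓ : IsTubeLattice Γ) (F σ : ℂ → ℝ)

include hΓ

theorem pull_unique (γ δ : Γ) (x : E3) (hγ : ‖(γ • x).1‖ < 1) (hδ : ‖(δ • x).1‖ < 1) :
    pull γ (tubeMetric F σ) x = pull δ (tubeMetric F σ) x := by
  have h1 : δ • x = (δ * γ⁻¹) • (γ • x) := by
    rw [← mul_smul, inv_mul_cancel_right]
  obtain ⟨ℓ, hℓ⟩ := hΓ.tube (δ * γ⁻¹) (γ • x) hγ (by rw [← h1]; exact hδ)
  have h2 : ∀ y : E3, δ • y = γ • y + ((0 : ℂ), ℓ) := fun y => by
    have := hℓ (γ • y)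
    rw [← mul_smul, inv_mul_cancel_right] at this
    rw [this]
    ext <;> simp
  have h3 : actD δ x = actD γ x := by
    unfold actD
    have : (fun y : E3 => δ • y) = fun y : E3 => γ • y + ((0 : ℂ), ℓ) := funext h2
    rw [this, fderiv_add_const]
  refine form_ext fun v w => ?_
  rw [pull_apply', pull_apply', h3, tubeMetric_apply, tubeMetric_apply]
  have h4 : (δ • x).1 = (γ • x).1 := by rw [h2]; simp
  rw [h4]

theorem globalG_eq_pull (γ : Γ) (x : E3) (hγ : ‖(γ • x).1‖ < 1) :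
    globalG Γ F σ x = pull γ (tubeMetric F σ) x := by
  have h : ∃ γ : Γ, ‖(γ • x).1‖ < 1 := ⟨γ, hγ⟩
  unfold globalG
  rw [dif_pos h]
  exact pull_unique hΓ F σ _ _ x h.choose_spec hγ

theorem globalG_tube (x : E3) (hx : ‖x.1‖ < 1) : globalG Γ F σ x = tubeMetric F σ x := by
  rw [globalG_eq_pull hΓ F σ 1 x (by rwa [one_smul])]
  refine form_ext fun v w => ?_
  rw [pull_apply', actD_one, actD_one, one_smul]

theorem globalG_hyp (hF : ∀ w, 1 / 4 ≤ ‖w‖ → F w = 1 + Complex.normSq w)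
    (hσ : ∀ w, 1 / 4 ≤ ‖w‖ → σ w = 1 / (1 + Complex.normSq w)) (x : E3)
    (hx : ∀ γ : Γ, 1 / 4 ≤ ‖(γ • x).1‖) (v w : E3) : globalG Γ F σ x v w = hypForm x v w := by
  by_cases h : ∃ γ : Γ, ‖(γ • x).1‖ < 1
  · obtain ⟨γ, hγ⟩ := h
    rw [globalG_eq_pull hΓ F σ γ x hγ, pull_apply', tubeMetric_apply, hF _ (hx γ), hσ _ (hx γ),
      ← hΓ.isometry γ x v w, ← hyp_apply, hyp, tubeMetric_apply]
    rfl
  · unfold globalG
    rw [dif_neg h, hyp_apply]

/-- translations of the tube -/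
theorem exists_compact_rep : ∃ T : Set E3, IsCompact T ∧ ∀ x : E3, ‖x.1‖ ≤ 1 / 2 →
    ∃ γ : Γ, γ • x ∈ T ∧ (γ • x).1 = x.1 := by
  obtain ⟨τ, ℓ, hℓ, hτ⟩ := hΓ.translation
  have hn : ∀ (n : ℕ) (y : E3), τ ^ n • y = (y.1, y.2 + n * ℓ) := by
    intro n
    induction n with
    | zero => intro y; simp
    | succ n ih =>
      intro y
      rw [pow_succ', mul_smul, ih, hτ]
      ext <;> simp
      ring
  have hm : ∀ (n : ℕ) (y : E3), (τ ^ n)⁻¹ • y = (y.1, y.2 - n * ℓ) := by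
    intro n y
    rw [inv_smul_eq_iff, hn]
    ext <;> simp
  have hz : ∀ (n : ℤ) (y : E3), τ ^ n • y = (y.1, y.2 + n * ℓ) := by
    intro n y
    cases n with
    | ofNat n => simpa using hn n y
    | negSucc n =>
      rw [zpow_negSucc, hm]
      ext <;> simp
      ring
  refine ⟨Metric.closedBall (0 : ℂ) (1 / 2) ×ˢ Set.Icc 0 ℓ,
    (isCompact_closedBall _ _).prod isCompact_Icc, fun x hx => ?_⟩
  refine ⟨τ ^ (-⌊x.2 / ℓ⌋), ?_⟩
  rw [hz]
  refine ⟨⟨by simpa using hx, ?_⟩, rfl⟩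
  have h1 := Int.floor_le (x.2 / ℓ)
  have h2 := Int.lt_floor_add_one (x.2 / ℓ)
  rw [le_div_iff₀ hℓ] at h1
  rw [div_lt_iff₀ hℓ] at h2
  simp only [Int.cast_neg, Set.mem_Icc]
  constructor <;> nlinarith

theorem isOpen_far : IsOpen {x : E3 | ∀ γ : Γ, 1 / 2 < ‖(γ • x).1‖} := by
  obtain ⟨T, hT, hrep⟩ := exists_compact_rep hΓ
  rw [isOpen_iff_mem_nhds]
  intro x₀ hx₀
  have hfin := hΓ.properlyDiscontinuous (Metric.closedBall x₀ 1) T (isCompact_closedBall _ _) hT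
  have hcont : ∀ γ : Γ, Continuous fun x : E3 => ‖(γ • x).1‖ := fun γ =>
    continuous_norm.comp (continuous_fst.comp (hΓ.smooth γ).continuous)
  have hopen : IsOpen (⋂ γ ∈ {γ : Γ | (((fun x : E3 => γ • x) '' Metric.closedBall x₀ 1) ∩
      T).Nonempty}, {x : E3 | 1 / 2 < ‖(γ • x).1‖}) :=
    hfin.isOpen_biInter fun γ _ => isOpen_lt continuous_const (hcont γ)
  have hmem : x₀ ∈ (⋂ γ ∈ {γ : Γ | (((fun x : E3 => γ • x) '' Metric.closedBall x₀ 1) ∩
      T).Nonempty}, {x : E3 | 1 / 2 < ‖(γ • x).1‖}) := by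
    simp only [Set.mem_iInter]
    intro γ _
    exact hx₀ γ
  refine Filter.mem_of_superset (Filter.inter_mem (hopen.mem_nhds hmem)
    (Metric.ball_mem_nhds x₀ one_pos)) ?_
  rintro x ⟨hx1, hx2⟩ γ
  by_contra hcon
  push Not at hcon
  obtain ⟨δ, hδT, hδ1⟩ := hrep (γ • x) hcon
  rw [← mul_smul] at hδT hδ1
  have h1 : (δ * γ) ∈ {γ : Γ | (((fun x : E3 => γ • x) '' Metric.closedBall x₀ 1) ∩
      T).Nonempty} := ⟨(δ * γ) • x, ⟨x, Metric.ball_subset_closedBall hx2, rfl⟩, hδT⟩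
  have h2 := Set.mem_iInter₂.1 hx1 (δ * γ) h1
  have h3 : 1 / 2 < ‖((δ * γ) • x).1‖ := h2
  rw [hδ1] at h3
  linarith

theorem contDiff_globalG (hFs : ContDiff ℝ ∞ F) (hσs : ContDiff ℝ ∞ σ)
    (hF : ∀ w, 1 / 4 ≤ ‖w‖ → F w = 1 + Complex.normSq w)
    (hσ : ∀ w, 1 / 4 ≤ ‖w‖ → σ w = 1 / (1 + Complex.normSq w)) :
    ContDiff ℝ ∞ (globalG Γ F σ) := by
  rw [contDiff_iff_contDiffAt]
  intro x
  by_cases h : ∃ γ : Γ, ‖(γ • x).1‖ < 1
  · obtain ⟨γ, hγ⟩ := h
    have hopen : IsOpen {y : E3 | ‖(γ • y).1‖ < 1} :=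
      isOpen_lt (continuous_norm.comp (continuous_fst.comp (hΓ.smooth γ).continuous))
        continuous_const
    refine (contDiff_pull γ (hΓ.smooth γ) (contDiff_tubeMetric hFs hσs)).contDiffAt.congr_of_eventuallyEq ?_
    filter_upwards [hopen.mem_nhds hγ] with y hy
    exact globalG_eq_pull hΓ F σ γ y hy
  · push Not at h
    have hx : x ∈ {x : E3 | ∀ γ : Γ, 1 / 2 < ‖(γ • x).1‖} := fun γ => by
      have := h γ
      linarith
    refine contDiff_hyp.contDiffAt.congr_of_eventuallyEq ?_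
    filter_upwards [(isOpen_far hΓ).mem_nhds hx] with y hy
    refine form_ext fun v w => ?_
    rw [globalG_hyp hΓ F σ hF hσ y (fun γ => by have := hy γ; linarith), hyp_apply]

theorem globalG_isometry (hF : ∀ w, 1 / 4 ≤ ‖w‖ → F w = 1 + Complex.normSq w)
    (hσ : ∀ w, 1 / 4 ≤ ‖w‖ → σ w = 1 / (1 + Complex.normSq w)) (γ : Γ) (x v w : E3) :
    globalG Γ F σ (γ • x) (actD γ x v) (actD γ x w) = globalG Γ F σ x v w := by
  by_cases h : ∃ δ : Γ, ‖(δ • x).1‖ < 1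
  · obtain ⟨δ, hδ⟩ := h
    have h1 : (δ * γ⁻¹) • (γ • x) = δ • x := by
      rw [← mul_smul, inv_mul_cancel_right]
    have h2 : ∀ v, actD (δ * γ⁻¹) (γ • x) (actD γ x v) = actD δ x v := fun v => by
      rw [← actD_mul hΓ.smooth, inv_mul_cancel_right]
    rw [globalG_eq_pull hΓ F σ δ x hδ, globalG_eq_pull hΓ F σ (δ * γ⁻¹) (γ • x) (by rwa [h1]),
      pull_apply', pull_apply', h1, h2, h2]
  · push Not at h
    rw [globalG_hyp hΓ F σ hF hσ x (fun δ => by have := h δ; linarith),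
      globalG_hyp hΓ F σ hF hσ (γ • x) (fun δ => by
        have := h (δ * γ)
        rw [mul_smul] at this
        linarith)]
    exact hΓ.isometry γ x v w

theorem globalG_symm (x v w : E3) : globalG Γ F σ x v w = globalG Γ F σ x w v := by
  by_cases h : ∃ δ : Γ, ‖(δ • x).1‖ < 1
  · obtain ⟨δ, hδ⟩ := h
    rw [globalG_eq_pull hΓ F σ δ x hδ, pull_apply', pull_apply', tubeMetric_symm]
  · unfold globalG
    rw [dif_neg h, hyp, tubeMetric_symm]

theorem globalG_pos (hF0 : ∀ w, 0 < F w) (hσ0 : ∀ w, 0 ≤ σ w)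
    (hσ1 : ∀ w, σ w * Complex.normSq w < 1) (x v : E3) (hv : v ≠ 0) :
    0 < globalG Γ F σ x v v := by
  by_cases h : ∃ δ : Γ, ‖(δ • x).1‖ < 1
  · obtain ⟨δ, hδ⟩ := h
    rw [globalG_eq_pull hΓ F σ δ x hδ, pull_apply']
    exact tubeMetric_pos F σ _ (hF0 _) (hσ0 _) (hσ1 _) _ (actD_ne_zero hΓ.smooth δ x v hv)
  · unfold globalG
    rw [dif_neg h, hyp]
    have h1 := Complex.normSq_nonneg x.1
    refine tubeMetric_pos _ _ _ ?_ ?_ ?_ v hv
    · positivity
    · positivity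
    · rw [one_div, inv_mul_lt_iff₀ (by positivity)]
      linarith

end Group

/-- Module G4. -/
theorem globalMetric : GlobalMetric := by
  intro Γ _ _ hΓ F σ hFs hσs hF0 hσ0 hσ1 hF hσ
  refine ⟨globalG Γ F σ, ?_, globalG_tube hΓ F σ, ?_, isOpen_far hΓ⟩
  · refine ⟨⟨contDiff_globalG hΓ F σ hFs hσs hF hσ, globalG_symm hΓ F σ,
      globalG_pos hΓ F σ hF0 hσ0 hσ1⟩, hΓ.smooth, globalG_isometry hΓ F σ hF hσ, hΓ.free,
      hΓ.properlyDiscontinuous, ?_⟩
    obtain ⟨K, hK, hKx⟩ := hΓ.cocompact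
    constructor
    have h1 : (Set.univ : Set (MulAction.orbitRel.Quotient Γ E3)) = Quotient.mk _ '' K := by
      symm
      rw [Set.eq_univ_iff_forall]
      intro q
      induction q using Quotient.inductionOn with
      | h x =>
        obtain ⟨γ, hγ⟩ := hKx x
        exact ⟨γ • x, hγ, Quotient.sound (MulAction.orbitRel_apply.2 ⟨γ, rfl⟩)⟩
    rw [h1]
    exact hK.image continuous_quotient_mk'
  · intro x hx v w
    exact globalG_hyp hΓ F σ hF hσ x (fun γ => by have := hx γ; linarith) v w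

end Pool.Agent.Helper79.NC
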